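import Pool.Agent.Work.MP_1ce445_lim.Interface

/-! Block EN0: the value of `FF` near zero. -/

set_option autoImplicit false

namespace Pool.Agent.Work.MP_1ce445_lim

open Finset Pool.Agent.Work.MP_1ce445_co_56 Pool.Agent.Work.MP_1ce445_lin Pool.Agent.Work.MP_1ce445_low

theorem EN0_aux (c δ : ℝ) (hc : 0 < c) (hc1 : c < 1 / 36) (hδ : 0 < δ) (n0 : ℕ) :
    ∃ n k : ℕ, n0 ≤ n ∧ 3 ≤ k ∧ (k : ℝ) ≤ n / 36 ∧ |(k : ℝ) - c * n| ≤ δ * n ∧ (0 : ℝ) < (NN n : ℝ) ^ k := by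
  set n : ℕ := max (max n0 2) (max ⌈3 / c⌉₊ ⌈1 / δ⌉₊) with hn
  have hn0 : n0 ≤ n := le_trans (le_max_left _ _) (le_max_left _ _)
  have hn2 : 2 ≤ n := le_trans (le_max_right _ _) (le_max_left _ _)
  have hnc : 3 / c ≤ n := by
    have h1 : ⌈3 / c⌉₊ ≤ n := le_trans (le_max_left _ _) (le_max_right _ _)
    exact le_trans (Nat.le_ceil _) (by exact_mod_cast h1)
  have hnd : 1 / δ ≤ n := by
    have h1 : ⌈1 / δ⌉₊ ≤ n := le_trans (le_max_right _ _) (le_max_right _ _)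
    exact le_trans (Nat.le_ceil _) (by exact_mod_cast h1)
  have h3 : 3 ≤ c * n := by
    rw [div_le_iff₀ hc] at hnc
    linarith
  have h4 : 1 ≤ δ * n := by
    rw [div_le_iff₀ hδ] at hnd
    linarith
  have hcn : 0 ≤ c * n := by linarith
  have hk1 : (⌊c * (n : ℝ)⌋₊ : ℝ) ≤ c * n := Nat.floor_le hcn
  have hk2 : c * n < (⌊c * (n : ℝ)⌋₊ : ℝ) + 1 := Nat.lt_floor_add_one _
  refine ⟨n, ⌊c * (n : ℝ)⌋₊, hn0, ?_, ?_, ?_, ?_⟩
  · exact Nat.le_floor (by exact_mod_cast h3)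
  · have hn' : (0 : ℝ) ≤ n := Nat.cast_nonneg n
    have h5 : c * n ≤ 1 / 36 * n := mul_le_mul_of_nonneg_right hc1.le hn'
    linarith
  · rw [abs_le]
    constructor
    · linarith
    · linarith
  · apply pow_pos
    have h6 : 0 < NN n := by
      show 0 < 2 * (n / 2)
      omega
    exact_mod_cast h6

theorem stmt_EN0 (h1 : Stmt_LIMU) (h2 : Stmt_LIML) (h3 : Pool.Agent.Work.MP_1ce445_sm.Stmt_UP3)
    (h4 : Pool.Agent.Work.MP_1ce445_sm.Stmt_LW3) : Stmt_EN0 := by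
  intro c hc hc1
  have hc2 : c < 1 := by linarith
  apply le_antisymm
  · apply le_of_forall_pos_le_add
    intro ε hε
    obtain ⟨δ, n0, hδ, hL⟩ := h2 c (ε / 2) hc hc2 (by linarith)
    obtain ⟨n1, hU⟩ := h3 (ε / 2) (by linarith)
    obtain ⟨n, k, hn, hk3, hk36, hkc, hN⟩ := EN0_aux c δ hc hc1 hδ (max n0 n1)
    have e1 := hL n k (le_trans (le_max_left _ _) hn) hkc
    have e2 := hU n k (le_trans (le_max_right _ _) hn) hk36
    have e3 := le_of_mul_le_mul_right (le_trans e1 e2) hN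
    linarith
  · apply le_of_forall_pos_le_add
    intro ε hε
    obtain ⟨δ, n0, hδ, hU⟩ := h1 c (ε / 2) hc hc2 (by linarith)
    obtain ⟨n1, hL⟩ := h4 (ε / 2) (by linarith)
    obtain ⟨n, k, hn, hk3, hk36, hkc, hN⟩ := EN0_aux c δ hc hc1 hδ (max n0 n1)
    have e1 := hU n k (le_trans (le_max_left _ _) hn) hkc
    have e2 := hL n k (le_trans (le_max_right _ _) hn) hk3 hk36
    have e3 := le_of_mul_le_mul_right (le_trans e2 e1) hN
    linarith

end Pool.Agent.Work.MP_1ce445_lim
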