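import Pool.Agent.Work.MP_1ce445_lim.Interface

/-!
Block EN1 of the table `lim_blocks` (MP_1ce445_co): near `c = 1` the limit function `FF c` is close to `1 / e`.
-/

namespace Pool.Agent.Work.MP_1ce445_lim

open Finset Pool.Agent.Work.MP_1ce445_co_56 Pool.Agent.Work.MP_1ce445_lin Pool.Agent.Work.MP_1ce445_low

theorem stmt_EN1 (h1 : Pool.Agent.Work.MP_1ce445_low.Stmt_LIMU)
    (h2 : Pool.Agent.Work.MP_1ce445_low.Stmt_LIML)
    (h3 : Pool.Agent.Work.MP_1ce445_top.Stmt_TU2)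
    (h4 : Pool.Agent.Work.MP_1ce445_top.Stmt_TLW) : Stmt_EN1 := by
  intro ε hε
  obtain ⟨R1, n1, hT⟩ := h3 (ε / 2) (by linarith)
  obtain ⟨R2, n2, hR2, hW⟩ := h4 (ε / 2) (by linarith)
  refine ⟨R2 + 1, by omega, ?_⟩
  intro c hc hc1
  have hR2' : (1 : ℝ) ≤ (R2 : ℝ) := by exact_mod_cast hR2
  have hcast : (((R2 + 1 : ℕ) : ℝ)) = (R2 : ℝ) + 1 := by push_cast; ring
  rw [hcast] at hc
  have hle : 1 / ((R2 : ℝ) + 1) ≤ 1 / (R2 : ℝ) := by
    apply one_div_le_one_div_of_le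
    · linarith
    · linarith
  have hle1 : 1 / ((R2 : ℝ) + 1) ≤ 1 := by
    rw [div_le_one (by linarith)]
    linarith
  have hc0 : 0 < c := by linarith
  have hgap : 0 < c - (1 - 1 / (R2 : ℝ)) := by linarith
  obtain ⟨d1, m1, hd1, hU⟩ := h1 c (ε / 2) hc0 hc1 (by linarith)
  obtain ⟨d2, m2, hd2, hL⟩ := h2 c (ε / 2) hc0 hc1 (by linarith)
  obtain ⟨a1, ha1⟩ := exists_nat_ge (1 / d1)
  obtain ⟨a2, ha2⟩ := exists_nat_ge (1 / d2)
  obtain ⟨a3, ha3⟩ := exists_nat_ge (((R1 : ℝ) + 2) / (1 - c))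
  obtain ⟨a4, ha4⟩ := exists_nat_ge (1 / (c - (1 - 1 / (R2 : ℝ))))
  obtain ⟨n, hn⟩ : ∃ n : ℕ, n = n1 + n2 + m1 + m2 + a1 + a2 + a3 + a4 + 2 := ⟨_, rfl⟩
  have hnn1 : n1 ≤ n := by omega
  have hnn2 : n2 ≤ n := by omega
  have hnm1 : m1 ≤ n := by omega
  have hnm2 : m2 ≤ n := by omega
  have hna1 : (a1 : ℝ) ≤ (n : ℝ) := by
    have : a1 ≤ n := by omega
    exact_mod_cast this
  have hna2 : (a2 : ℝ) ≤ (n : ℝ) := by
    have : a2 ≤ n := by omega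
    exact_mod_cast this
  have hna3 : (a3 : ℝ) ≤ (n : ℝ) := by
    have : a3 ≤ n := by omega
    exact_mod_cast this
  have hna4 : (a4 : ℝ) ≤ (n : ℝ) := by
    have : a4 ≤ n := by omega
    exact_mod_cast this
  have hn2 : 2 ≤ n := by omega
  have hn0 : (0 : ℝ) ≤ (n : ℝ) := Nat.cast_nonneg n
  have e1 : 1 ≤ d1 * (n : ℝ) := by
    have h : 1 / d1 ≤ (n : ℝ) := le_trans ha1 hna1
    rw [div_le_iff₀ hd1] at h
    linarith
  have e2 : 1 ≤ d2 * (n : ℝ) := by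
    have h : 1 / d2 ≤ (n : ℝ) := le_trans ha2 hna2
    rw [div_le_iff₀ hd2] at h
    linarith
  have e3 : (R1 : ℝ) + 2 ≤ (1 - c) * (n : ℝ) := by
    have h : ((R1 : ℝ) + 2) / (1 - c) ≤ (n : ℝ) := le_trans ha3 hna3
    rw [div_le_iff₀ (by linarith)] at h
    linarith
  have e4 : 1 ≤ (c - (1 - 1 / (R2 : ℝ))) * (n : ℝ) := by
    have h : 1 / (c - (1 - 1 / (R2 : ℝ))) ≤ (n : ℝ) := le_trans ha4 hna4
    rw [div_le_iff₀ hgap] at h
    linarith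
  have hcn : 0 ≤ c * (n : ℝ) := mul_nonneg hc0.le hn0
  obtain ⟨k, hk⟩ : ∃ k : ℕ, k = ⌊c * (n : ℝ)⌋₊ := ⟨_, rfl⟩
  have hk1 : (k : ℝ) ≤ c * n := by
    rw [hk]
    exact Nat.floor_le hcn
  have hk2 : c * (n : ℝ) < (k : ℝ) + 1 := by
    rw [hk]
    exact Nat.lt_floor_add_one _
  have habs : |(k : ℝ) - c * n| ≤ 1 := by
    rw [abs_le]
    constructor <;> linarith
  have hkR : k + R1 ≤ n := by
    have : (k : ℝ) + (R1 : ℝ) ≤ (n : ℝ) := by nlinarith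
    exact_mod_cast this
  have hk22 : k + 2 ≤ n := by
    have hR1 : (0 : ℝ) ≤ (R1 : ℝ) := Nat.cast_nonneg R1
    have : (k : ℝ) + 2 ≤ (n : ℝ) := by nlinarith
    exact_mod_cast this
  have hkW : (1 - 1 / (R2 : ℝ)) * n ≤ k := by nlinarith
  have hPU := hU n k hnm1 (le_trans habs e1)
  have hPL := hL n k hnm2 (le_trans habs e2)
  have hPT := hT n k hnn1 hkR
  have hPW := hW n k hnn2 hkW hk22
  have hNN : 0 < NN n := by
    unfold NN
    omega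
  have hN : (0 : ℝ) < (NN n : ℝ) ^ k := by
    apply pow_pos
    exact_mod_cast hNN
  have q1 : Real.exp (-1) - ε / 2 ≤ FF c + ε / 2 := by
    have h : (Real.exp (-1) - ε / 2) * (NN n : ℝ) ^ k ≤ (FF c + ε / 2) * (NN n : ℝ) ^ k := le_trans hPW hPU
    exact le_of_mul_le_mul_right h hN
  have q2 : FF c - ε / 2 ≤ Real.exp (-1) + ε / 2 := by
    have h : (FF c - ε / 2) * (NN n : ℝ) ^ k ≤ (Real.exp (-1) + ε / 2) * (NN n : ℝ) ^ k := le_trans hPL hPT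
    exact le_of_mul_le_mul_right h hN
  rw [abs_le]
  constructor <;> linarith

end Pool.Agent.Work.MP_1ce445_lim
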