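import Pool.Agent.Work.MP_1ce445_lim.Interface

/-!
Block FIN of the table `lim_blocks` (MP_1ce445_co): the limit function, uniformly for all `3 ≤ k ≤ n - R`.
-/

namespace Pool.Agent.Work.MP_1ce445_lim

open Finset Pool.Agent.Work.MP_1ce445_co_56 Pool.Agent.Work.MP_1ce445_lin Pool.Agent.Work.MP_1ce445_low

theorem stmt_FIN (h1 : Pool.Agent.Work.MP_1ce445_low.Stmt_UNF) (h2 : Stmt_EN0) (h3 : Stmt_EN1)
    (h4 : Pool.Agent.Work.MP_1ce445_sm.Stmt_UP3) (h5 : Pool.Agent.Work.MP_1ce445_sm.Stmt_LW3)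
    (h6 : Pool.Agent.Work.MP_1ce445_top.Stmt_TU2)
    (h7 : Pool.Agent.Work.MP_1ce445_top.Stmt_TLW) : Stmt_FIN := by
  intro ε hε
  obtain ⟨R', hR', hE⟩ := h3 (ε / 2) (by linarith)
  obtain ⟨R1, n1, hT⟩ := h6 (ε / 2) (by linarith)
  obtain ⟨R2, n2, hR2, hW⟩ := h7 (ε / 2) (by linarith)
  obtain ⟨n3, hU⟩ := h4 ε hε
  obtain ⟨n4, hL⟩ := h5 ε hε
  obtain ⟨S, hS⟩ : ∃ S : ℕ, S = R' + R2 + 1 := ⟨_, rfl⟩
  have hR'1 : (2 : ℝ) ≤ (R' : ℝ) := by exact_mod_cast hR'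
  have hR21 : (1 : ℝ) ≤ (R2 : ℝ) := by exact_mod_cast hR2
  have hSr : (S : ℝ) = (R' : ℝ) + (R2 : ℝ) + 1 := by
    rw [hS]
    push_cast
    ring
  have hS0 : (0 : ℝ) < (S : ℝ) := by linarith
  have hSR' : 1 / (S : ℝ) ≤ 1 / (R' : ℝ) := one_div_le_one_div_of_le (by linarith) (by linarith)
  have hSR2 : 1 / (S : ℝ) ≤ 1 / (R2 : ℝ) := one_div_le_one_div_of_le (by linarith) (by linarith)
  have hSpos : 0 < 1 / (S : ℝ) := one_div_pos.2 hS0
  obtain ⟨n5, hF⟩ := h1 (1 / 36) (1 - 1 / (S : ℝ)) ε (by norm_num) (by linarith) hε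
  refine ⟨R1 + 2, n1 + n2 + n3 + n4 + n5 + 2, ?_⟩
  intro n k hn hk3 hkR
  have hn0 : (0 : ℝ) < (n : ℝ) := by
    have : 0 < n := by omega
    exact_mod_cast this
  have hk0 : (0 : ℝ) < (k : ℝ) := by
    have : 0 < k := by omega
    exact_mod_cast this
  have hkn : (k : ℝ) < (n : ℝ) := by
    have : k < n := by omega
    exact_mod_cast this
  have hc0 : 0 < (k : ℝ) / n := div_pos hk0 hn0
  have hc1 : (k : ℝ) / n < 1 := (div_lt_one hn0).2 hkn
  have hN : (0 : ℝ) ≤ (NN n : ℝ) ^ k := pow_nonneg (Nat.cast_nonneg _) _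
  by_cases ha : (k : ℝ) / n < 1 / 36
  · have hFF : FF ((k : ℝ) / n) = 1 / 27 := h2 _ hc0 ha
    have hk36 : (k : ℝ) ≤ n / 36 := by
      rw [div_lt_iff₀ hn0] at ha
      linarith
    have e1 := hU n k (by omega) hk36
    have e2 := hL n k (by omega) hk3 hk36
    rw [hFF, abs_le]
    constructor
    · linarith
    · linarith
  · push Not at ha
    by_cases hb : (k : ℝ) / n ≤ 1 - 1 / (S : ℝ)
    · refine hF n k (by omega) ?_ ?_
      · rw [le_div_iff₀ hn0] at ha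
        exact ha
      · rw [div_le_iff₀ hn0] at hb
        exact hb
    · push Not at hb
      have e1 := hE ((k : ℝ) / n) (by linarith) hc1
      have e2 := hT n k (by omega) (by omega)
      have hkW : (1 - 1 / (R2 : ℝ)) * n ≤ k := by
        have h : 1 - 1 / (R2 : ℝ) ≤ (k : ℝ) / n := by linarith
        rw [le_div_iff₀ hn0] at h
        exact h
      have e3 := hW n k (by omega) hkW (by omega)
      rw [abs_le] at e1
      obtain ⟨e4, e5⟩ := e1
      have e6 : (FF ((k : ℝ) / n) - ε) * (NN n : ℝ) ^ k ≤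
          (Real.exp (-1) - ε / 2) * (NN n : ℝ) ^ k :=
        mul_le_mul_of_nonneg_right (by linarith) hN
      have e7 : (Real.exp (-1) + ε / 2) * (NN n : ℝ) ^ k ≤
          (FF ((k : ℝ) / n) + ε) * (NN n : ℝ) ^ k :=
        mul_le_mul_of_nonneg_right (by linarith) hN
      rw [abs_le]
      constructor
      · linarith
      · linarith

end Pool.Agent.Work.MP_1ce445_lim

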