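import Pool.Agent.Work.MP_1ce445_lim.Defs
import Pool.Agent.Work.MP_1ce445_low.Interface3

/-!
The two forms of the limit function are equal.
-/

namespace Pool.Agent.Work.MP_1ce445_lim

open Finset Pool.Agent.Work.MP_1ce445_co_56 Pool.Agent.Work.MP_1ce445_lin Pool.Agent.Work.MP_1ce445_low

/-- from a type system on `Fin m` to one on a finite type -/
def toTSys {m q : ℕ} {c : ℝ} (S : TypeSystem m q c) : TSys (Fin m) q (1 - c) where
  T := S.T
  w := S.w
  x := S.x
  ne := S.T_nonempty
  w_pos := S.w_pos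
  w_sum := S.w_sum
  symm := S.symm
  nonneg := S.nonneg
  le := S.le
  zero := S.disjoint
  row := S.regular

theorem toTSys_val {m q : ℕ} {c : ℝ} (S : TypeSystem m q c) : (toTSys S).val = S.value := rfl

/-- from a finite type to `Fin m` -/
noncomputable def ofTSys {ι : Type} [Fintype ι] [DecidableEq ι] {q : ℕ} {c : ℝ}
    (S : TSys ι q (1 - c)) : TypeSystem (Fintype.card ι) q c where
  T := fun s => S.T ((Fintype.equivFin ι).symm s)
  w := fun s => S.w ((Fintype.equivFin ι).symm s)
  x := fun s t => S.x ((Fintype.equivFin ι).symm s) ((Fintype.equivFin ι).symm t)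
  T_nonempty := fun _ => S.ne _
  w_pos := fun _ => S.w_pos _
  w_sum := (Equiv.sum_comp (Fintype.equivFin ι).symm S.w).trans S.w_sum
  symm := fun _ _ => S.symm _ _
  nonneg := fun _ _ => S.nonneg _ _
  le := fun _ _ => S.le _ _
  disjoint := fun _ _ h => S.zero _ _ h
  regular := fun s =>
    (Equiv.sum_comp (Fintype.equivFin ι).symm
      (fun t => S.x ((Fintype.equivFin ι).symm s) t)).trans (S.row _)

theorem ofTSys_val {ι : Type} [Fintype ι] [DecidableEq ι] {q : ℕ} {c : ℝ}
    (S : TSys ι q (1 - c)) : (ofTSys S).value = S.val := by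
  unfold TypeSystem.value TSys.val TSys.p
  refine prod_congr rfl fun a _ => ?_
  congr 1
  exact Equiv.sum_comp (Fintype.equivFin ι).symm (fun s => if a ∈ S.T s then S.w s else 0)

theorem FF_eq (c : ℝ) : FF c = limitFunction c := by
  unfold FF limitFunction HasVal
  congr 1
  ext v
  constructor
  · rintro ⟨ι, i1, i2, q, S, rfl⟩
    exact ⟨Fintype.card ι, q, ofTSys S, (ofTSys_val S).symm⟩
  · rintro ⟨m, q, S, rfl⟩
    exact ⟨Fin m, inferInstance, inferInstance, q, toTSys S, toTSys_val S⟩

end Pool.Agent.Work.MP_1ce445_lim
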