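import Pool.Agent.Work.MP_1ce445_low.AllLow
import Pool.Agent.Work.MP_1ce445_sm.End
import Pool.Agent.Work.MP_1ce445_top.End
import Pool.Agent.Work.MP_1ce445_lim.Transfer
import Pool.Agent.Work.MP_1ce445_lim.EN0
import Pool.Agent.Work.MP_1ce445_lim.EN1
import Pool.Agent.Work.MP_1ce445_lim.FIN

/-!
The theorem on the limit function: all blocks together.
-/

namespace Pool.Agent.Work.MP_1ce445_lim

open Finset Pool.Agent.Work.MP_1ce445_co_56 Pool.Agent.Work.MP_1ce445_lin Pool.Agent.Work.MP_1ce445_low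
open Pool.Agent.Work.MP_1ce445_sm Pool.Agent.Work.MP_1ce445_top

theorem hEN0 : Stmt_EN0 := stmt_EN0 h_LIMU h_LIML hUP3 hLW3

theorem hEN1 : Stmt_EN1 := stmt_EN1 h_LIMU h_LIML hTU2 hTLW

theorem hFIN : Stmt_FIN := stmt_FIN h_UNF hEN0 hEN1 hUP3 hLW3 hTU2 hTLW

/-- the values near `0`, the end point included -/
theorem limit_small (c : ℝ) (h0 : 0 < c) (h1 : c ≤ 1 / 36) : limitFunction c = 1 / 27 := by
  rcases lt_or_eq_of_le h1 with h | h
  · rw [← FF_eq]; exact hEN0 c h0 h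
  · have hc : ContinuousAt FF (1 / 36) :=
      (h_CNT.2).continuousAt (Ioo_mem_nhds (by norm_num) (by norm_num))
    have h2 : Filter.Tendsto FF (nhdsWithin (1 / 36) (Set.Ioo 0 (1 / 36))) (nhds (FF (1 / 36))) :=
      hc.tendsto.mono_left nhdsWithin_le_nhds
    have h3 : Filter.Tendsto FF (nhdsWithin (1 / 36) (Set.Ioo 0 (1 / 36))) (nhds (1 / 27)) := by
      refine tendsto_const_nhds.congr' ?_
      filter_upwards [self_mem_nhdsWithin] with x hx
      exact (hEN0 x hx.1 hx.2).symm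
    have : (nhdsWithin (1 / 36 : ℝ) (Set.Ioo 0 (1 / 36))).NeBot := by
      rw [← mem_closure_iff_nhdsWithin_neBot, closure_Ioo (by norm_num)]
      exact ⟨by norm_num, le_refl _⟩
    rw [h, ← FF_eq]
    exact tendsto_nhds_unique h2 h3

theorem limit_top :
    Filter.Tendsto limitFunction (nhdsWithin 1 (Set.Iio 1)) (nhds (Real.exp (-1))) := by
  rw [Metric.tendsto_nhds]
  intro ε hε
  obtain ⟨R, hR2, hR⟩ := hEN1 (ε / 2) (by linarith)
  have hR0 : (2 : ℝ) ≤ R := by exact_mod_cast hR2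
  have hpos : (0 : ℝ) < 1 / (R : ℝ) := by positivity
  have hmem : Set.Ioo (1 - 1 / (R : ℝ)) 1 ∈ nhdsWithin (1 : ℝ) (Set.Iio 1) :=
    Ioo_mem_nhdsLT (by linarith)
  filter_upwards [hmem] with c hc
  rw [← FF_eq, Real.dist_eq]
  exact lt_of_le_of_lt (hR c hc.1 hc.2) (by linarith)

/-- The theorem. -/
theorem lim_final :
    (∀ ε : ℝ, 0 < ε → ∃ R n0 : ℕ, ∀ n k : ℕ, n0 ≤ n → 3 ≤ k → k + R ≤ n →
      |(P n k : ℝ) / ((2 * (n / 2) : ℕ) : ℝ) ^ k - limitFunction ((k : ℝ) / n)| ≤ ε) ∧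
    ContinuousOn limitFunction (Set.Ioo 0 1) ∧ MonotoneOn limitFunction (Set.Ioo 0 1) ∧
    (∀ c : ℝ, 0 < c → c ≤ 1 / 36 → limitFunction c = 1 / 27) ∧
    Filter.Tendsto limitFunction (nhdsWithin 1 (Set.Iio 1)) (nhds (Real.exp (-1))) := by
  refine ⟨?_, ?_, ?_, limit_small, limit_top⟩
  · intro ε hε
    obtain ⟨R, n0, h⟩ := hFIN ε hε
    refine ⟨R, max n0 2, fun n k hn hk hkR => ?_⟩
    have h1 := h n k (by omega) hk hkR
    have hN : 0 < 2 * (n / 2) := by omega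
    have hN' : (0 : ℝ) < ((2 * (n / 2) : ℕ) : ℝ) := by exact_mod_cast hN
    have hp : (0 : ℝ) < ((2 * (n / 2) : ℕ) : ℝ) ^ k := pow_pos hN' k
    have hNN : NN n = 2 * (n / 2) := rfl
    rw [hNN, FF_eq] at h1
    have e : (P n k : ℝ) / ((2 * (n / 2) : ℕ) : ℝ) ^ k - limitFunction ((k : ℝ) / n) =
        ((P n k : ℝ) - limitFunction ((k : ℝ) / n) * ((2 * (n / 2) : ℕ) : ℝ) ^ k) /
          ((2 * (n / 2) : ℕ) : ℝ) ^ k := by
      field_simp
    rw [e, abs_div, abs_of_pos hp, div_le_iff₀ hp]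
    exact h1
  · have : limitFunction = FF := funext fun c => (FF_eq c).symm
    rw [this]; exact h_CNT.2
  · have : limitFunction = FF := funext fun c => (FF_eq c).symm
    rw [this]; exact h_CNT.1

end Pool.Agent.Work.MP_1ce445_lim
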