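import Mathlib

/-!
Type systems: the finite optimization problem which gives the leading constant of `P n k`.
-/

namespace Pool.Agent.Work.MP_1ce445_lim

open Finset

/-- A type system of density `c` with `m` types and `q` elements: each type `s` has a nonempty set
`T s` of elements and a positive weight `w s`, the weights have the sum `1`, and `x` is a symmetric
weighted graph on the types with `0 ≤ x s t ≤ w s * w t`, which is zero for disjoint types and
`(1 - c)`-regular: the sum of the row `s` is `(1 - c) * w s`. -/
structure TypeSystem (m q : ℕ) (c : ℝ) where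
  T : Fin m → Finset (Fin q)
  w : Fin m → ℝ
  x : Fin m → Fin m → ℝ
  T_nonempty : ∀ s, (T s).Nonempty
  w_pos : ∀ s, 0 < w s
  w_sum : ∑ s, w s = 1
  symm : ∀ s t, x s t = x t s
  nonneg : ∀ s t, 0 ≤ x s t
  le : ∀ s t, x s t ≤ w s * w t
  disjoint : ∀ s t, Disjoint (T s) (T t) → x s t = 0
  regular : ∀ s, ∑ t, x s t = (1 - c) * w s

/-- The value of a type system: the product of `1 - p a` over all elements `a`, where `p a` is the
total weight of the types which contain `a`. -/
noncomputable def TypeSystem.value {m q : ℕ} {c : ℝ} (S : TypeSystem m q c) : ℝ :=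
  ∏ a : Fin q, (1 - ∑ s, if a ∈ S.T s then S.w s else 0)

/-- The limit function: the supremum of the values of all type systems of density `c`. -/
noncomputable def limitFunction (c : ℝ) : ℝ :=
  sSup {v | ∃ (m q : ℕ) (S : TypeSystem m q c), v = S.value}

end Pool.Agent.Work.MP_1ce445_lim
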