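import Pool.Agent.Work.MP_1ce445_low.Interface3
import Pool.Agent.Work.MP_1ce445_sm.Interface
import Pool.Agent.Work.MP_1ce445_top.Interface

/-!
THEOREM LIM for MP_1ce445_co, the two ends: `P n k = (FF (k/n) + o(1)) (NN n)^k` uniformly for ALL `3 ≤ k ≤ n - R`, where
`FF c` (`MP_1ce445_low/Interface3.lean`) is the supremum of the values of the type systems with `D = 1 - c`. Statements of
the three blocks EN0, EN1, FIN with complete proofs in the docstrings. Statements used: `Stmt_LIMU`, `Stmt_LIML`, `Stmt_UNF` of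
`MP_1ce445_low`; `Stmt_UP3`, `Stmt_LW3` of `MP_1ce445_sm`; `Stmt_TU2`, `Stmt_TLW` of `MP_1ce445_top`.

One file `Pool/Agent/Work/MP_1ce445_lim/<ID>.lean` per block, `import Pool.Agent.Work.MP_1ce445_lim.Interface`,
same `open` lines, theorem `stmt_<ID>` with exactly the statements of the column `uses` as hypotheses, in this
order; auxiliary lemmas with the name of the block in front (`EN0_aux`).
-/

namespace Pool.Agent.Work.MP_1ce445_lim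

open Finset Pool.Agent.Work.MP_1ce445_co_56 Pool.Agent.Work.MP_1ce445_lin Pool.Agent.Work.MP_1ce445_low

/-- EN0 (100 lines; uses LIMU LIML UP3 LW3). For every `ε > 0` the numbers `FF c` and `1/27` differ by at most `2 ε`: take `n`
large and `k = ⌊c n⌋₊` (`3 ≤ k ≤ n/36`, `|k - c n| ≤ 1 ≤ δ n`); LIMU and LW3 give
`(1/27 - ε) N^k ≤ P n k ≤ (FF c + ε) N^k`, LIML and UP3 give `(FF c - ε) N^k ≤ P n k ≤ (1/27 + ε) N^k`, `N = NN n > 0`. -/
def Stmt_EN0 : Prop :=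
  ∀ c : ℝ, 0 < c → c < 1 / 36 → FF c = 1 / 27

/-- EN1 (120 lines; uses LIMU LIML TU2 TLW). `R1`, `n1` from TU2 and `R2`, `n2` from TLW, both for `ε/2`; `R = R2 + 1`. For
`1 - 1/R < c < 1` take `n` large and `k = ⌊c n⌋₊`: `k + R1 ≤ n`, `k + 2 ≤ n` (`(1 - c) n` is large), `(1 - 1/R2) n ≤ k`
(because `1 - 1/R2 < c`), and LIMU, LIML (`ε/2`) as in EN0. -/
def Stmt_EN1 : Prop :=
  ∀ ε : ℝ, 0 < ε → ∃ R : ℕ, 2 ≤ R ∧ ∀ c : ℝ, 1 - 1 / (R : ℝ) < c → c < 1 → |FF c - Real.exp (-1)| ≤ ε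

/-- FIN (150 lines; uses UNF EN0 EN1 UP3 LW3 TU2 TLW). Let `R'` be the `R` of EN1 for `ε/2`, `R1`, `R2` from TU2, TLW
(`ε/2`), `R'' = max R' R2 + 1`, `R = max R1 2`. (a) `k/n < 1/36`: EN0, UP3, LW3. (b) `1/36 ≤ k/n ≤ 1 - 1/R''`: UNF with
`a = 1/36`, `b = 1 - 1/R''`. (c) `k/n > 1 - 1/R''` and `k + R ≤ n`: TU2, TLW and EN1. -/
def Stmt_FIN : Prop :=
  ∀ ε : ℝ, 0 < ε → ∃ R n0 : ℕ, ∀ n k : ℕ, n0 ≤ n → 3 ≤ k → k + R ≤ n →
    |(P n k : ℝ) - FF ((k : ℝ) / n) * (NN n : ℝ) ^ k| ≤ ε * (NN n : ℝ) ^ k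

end Pool.Agent.Work.MP_1ce445_lim
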