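import Pool.Agent.Work.MP_1ce445_lim.End

/-!
Two tools for explicit values of the limit function `FF` (`le_FF`, `FF_le`, `FF_le_of_P`); `h_FIN` is the limit theorem.
-/

namespace Pool.Agent.Work.MP_1ce445_lim

open Finset Pool.Agent.Work.MP_1ce445_co_56 Pool.Agent.Work.MP_1ce445_lin Pool.Agent.Work.MP_1ce445_low

/-- the limit theorem, uniformly for all `3 ≤ k ≤ n - R` -/
theorem h_FIN : Stmt_FIN := hFIN

/-- a type system of density `c` is a lower bound for the limit function -/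
theorem le_FF (c v : ℝ) (h : HasVal (1 - c) v) : v ≤ FF c := by
  unfold FF
  exact le_csSup ⟨1, fun w hw => (Pool.Agent.Work.MP_1ce445_low.stmt_VAL _ _ hw).2⟩ h

/-- an upper bound for all type systems of density `c` is an upper bound for the limit function -/
theorem FF_le (c b : ℝ) (hc0 : 0 < c) (hc1 : c < 1) (h : ∀ v, HasVal (1 - c) v → v ≤ b) :
    FF c ≤ b := by
  unfold FF
  refine csSup_le ⟨1 / 27, Pool.Agent.Work.MP_1ce445_low.stmt_A27 (1 - c) (by linarith)
    (by linarith)⟩ h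

/-- an asymptotic upper bound near `k / n = c` is an upper bound for the limit function -/
theorem FF_le_of_P (c b : ℝ) (hc0 : 0 < c) (hc1 : c < 1)
    (h : ∀ ε : ℝ, 0 < ε → ∃ (δ : ℝ) (n0 : ℕ), 0 < δ ∧ ∀ n k : ℕ, n0 ≤ n →
      |(k : ℝ) - c * n| ≤ δ * n → (P n k : ℝ) ≤ (b + ε) * (NN n : ℝ) ^ k) : FF c ≤ b := by
  apply le_of_forall_pos_le_add
  intro ε hε
  obtain ⟨δ1, n1, hδ1, h1⟩ := Pool.Agent.Work.MP_1ce445_low.h_LIML c (ε / 2) hc0 hc1 (by linarith)
  obtain ⟨δ2, n2, hδ2, h2⟩ := h (ε / 2) (by linarith)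
  obtain ⟨n3, hn3⟩ := exists_nat_ge (1 / min δ1 δ2)
  have hm : 0 < min δ1 δ2 := lt_min hδ1 hδ2
  set n := max (max n1 n2) (max n3 2) with hn
  have hn1 : n1 ≤ n := le_trans (le_max_left _ _) (le_max_left _ _)
  have hn2 : n2 ≤ n := le_trans (le_max_right _ _) (le_max_left _ _)
  have hn3' : n3 ≤ n := le_trans (le_max_left _ _) (le_max_right _ _)
  have hn4 : 2 ≤ n := le_trans (le_max_right _ _) (le_max_right _ _)
  have hnr : (1 / min δ1 δ2) ≤ (n : ℝ) := hn3.trans (by exact_mod_cast hn3')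
  have h1n : 1 ≤ min δ1 δ2 * n := by
    rw [div_le_iff₀ hm] at hnr
    linarith
  set k := ⌊c * n⌋₊ with hk
  have hcn : 0 ≤ c * (n : ℝ) := by positivity
  have hk1 : (k : ℝ) ≤ c * n := Nat.floor_le hcn
  have hk2 : c * n < k + 1 := Nat.lt_floor_add_one _
  have habs : |(k : ℝ) - c * n| ≤ min δ1 δ2 * n := by
    rw [abs_le]
    constructor <;> linarith
  have hn0 : (0 : ℝ) ≤ n := by positivity
  have e1 := h1 n k hn1 (habs.trans (mul_le_mul_of_nonneg_right (min_le_left _ _) hn0))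
  have e2 := h2 n k hn2 (habs.trans (mul_le_mul_of_nonneg_right (min_le_right _ _) hn0))
  have hN : (0 : ℝ) < (NN n : ℝ) := by
    have : 0 < NN n := by
      show 0 < 2 * (n / 2)
      omega
    exact_mod_cast this
  have hp : (0 : ℝ) < (NN n : ℝ) ^ k := pow_pos hN k
  have e3 := e1.trans e2
  have := le_of_mul_le_mul_right e3 hp
  linarith

end Pool.Agent.Work.MP_1ce445_lim
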